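import Pool.Agent.Y150.CD.All

/-!
# `Ext²(ℚ₂(0), ℚ₂(2)) ≠ 0` for mixed potentially semistable representations (helper150)
-/

set_option autoImplicit false

namespace Pool.Agent.Results.MP_5968e7_ag.NonzeroYonedaSquare

open Pool.Agent.Y150.CD

/-- Let `C` be a class of `2`-adic representations of the absolute Galois group of `ℚ` which
contains all mixed representations that are Tate twists `ℚ₂(n)` or extensions of `ℚ₂(n)` by
`ℚ₂(n+1)` (for instance the mixed representations which are potentially semistable at `2`). Then
the Yoneda group `Ext²(ℚ₂(0), ℚ₂(2))` of the full subcategory `C` is not zero. -/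
theorem result (C : Rep → Prop) (hC : ∀ V, Mixed V → KummerType V → C V) :
    ∃ V W : Rep, IsTate 0 V ∧ IsTate 2 W ∧ ExtTwoNonzero C V W :=
  extTwo C hC

end Pool.Agent.Results.MP_5968e7_ag.NonzeroYonedaSquare
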